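import Pool.Agent.Helper28.EP.ADefs

/-!
# MP_36e183_co, part A, block A6: the operators `Q` along frames
-/

set_option autoImplicit false

namespace Pool.Agent.EP

open MvPolynomial

theorem frame_inv {A C : ℕ × ℕ} {g : List ℕ → List ℕ} (hg : Frame A C g) :
    C.1 * A.2 = C.2 * A.1 + 1 ∧ 1 ≤ C.1 ∧ 1 ≤ A.2 := by
  induction hg with
  | base => simp
  | tau h ih =>
    obtain ⟨h1, h2, h3⟩ := ih
    refine ⟨?_, by simp only; omega, h3⟩
    simp only
    nlinarith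
  | phi h ih =>
    obtain ⟨h1, h2, h3⟩ := ih
    refine ⟨?_, h2, by simp only; omega⟩
    simp only
    nlinarith

theorem frame_exists_aux (N : ℕ) : ∀ (x y : ℕ), x + y ≤ N → 1 ≤ x → 1 ≤ y → Nat.Coprime x y →
    ∀ (A C : ℕ × ℕ) (g : List ℕ → List ℕ), Frame A C g →
      ∃ A' C' g', Frame A' C' g' ∧ A'.1 + C'.1 = x * A.1 + y * C.1 ∧
        A'.2 + C'.2 = x * A.2 + y * C.2 := by
  induction N with
  | zero => intro x y hxy hx hy; omega
  | succ N ih =>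
    intro x y hxy hx hy hco A C g hg
    rcases Nat.lt_trichotomy x y with hlt | heq | hgt
    · obtain ⟨z, rfl⟩ : ∃ z, y = z + x := ⟨y - x, by omega⟩
      have hz : 1 ≤ z := by omega
      have hco' : Nat.Coprime x z := by
        rw [Nat.coprime_add_self_right] at hco
        exact hco
      obtain ⟨A', C', g', h1, h2, h3⟩ := ih x z (by omega) hx hz hco' _ _ _ (Frame.phi hg)
      refine ⟨A', C', g', h1, ?_, ?_⟩
      · rw [h2]; simp only; ring
      · rw [h3]; simp only; ring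
    · subst heq
      have hx1 : x = 1 := by
        have := hco
        rw [Nat.coprime_self] at this
        exact this
      subst hx1
      exact ⟨A, C, g, hg, by ring, by ring⟩
    · obtain ⟨z, rfl⟩ : ∃ z, x = z + y := ⟨x - y, by omega⟩
      have hz : 1 ≤ z := by omega
      have hco' : Nat.Coprime z y := by
        rw [Nat.coprime_add_self_left] at hco
        exact hco
      obtain ⟨A', C', g', h1, h2, h3⟩ := ih z y (by omega) hz hy hco' _ _ _ (Frame.tau hg)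
      refine ⟨A', C', g', h1, ?_, ?_⟩
      · rw [h2]; simp only; ring
      · rw [h3]; simp only; ring

theorem frame_exists (a b : ℕ) (ha : 1 ≤ a) (hb : 1 ≤ b) (hab : Nat.Coprime a b) :
    ∃ A C g, Frame A C g ∧ A.1 + C.1 = a ∧ A.2 + C.2 = b := by
  obtain ⟨A, C, g, h1, h2, h3⟩ :=
    frame_exists_aux (b + a) b a le_rfl hb ha hab.symm _ _ _ Frame.base
  refine ⟨A, C, g, h1, ?_, ?_⟩
  · rw [h2]; simp
  · rw [h3]; simp

theorem frame_C_aux {A C : ℕ × ℕ} {g : List ℕ → List ℕ} (hg : Frame A C g) (j : ℕ) :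
    ∃ g' : List ℕ → List ℕ,
      Frame (A.1 + C.1, A.2 + C.2) (C.1 + j * (A.1 + C.1), C.2 + j * (A.2 + C.2)) g' ∧
      ∀ l, g' l = g (phiL (l.map (· + j))) := by
  induction j with
  | zero =>
    refine ⟨fun l => g (phiL l), ?_, ?_⟩
    · have h := Frame.phi hg
      simpa using h
    · intro l
      simp
  | succ j ih =>
    obtain ⟨g', h1, h2⟩ := ih
    refine ⟨fun l => g' (tauL l), ?_, ?_⟩
    · have h := Frame.tau h1
      have e1 : (A.1 + C.1, A.2 + C.2).1 + (C.1 + j * (A.1 + C.1), C.2 + j * (A.2 + C.2)).1 =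
          C.1 + (j + 1) * (A.1 + C.1) := by simp only; ring
      have e2 : (A.1 + C.1, A.2 + C.2).2 + (C.1 + j * (A.1 + C.1), C.2 + j * (A.2 + C.2)).2 =
          C.2 + (j + 1) * (A.2 + C.2) := by simp only; ring
      rw [e1, e2] at h
      exact h
    · intro l
      simp only [h2, tauL, List.map_map]
      congr 2
      apply List.map_congr_left
      intro a _
      simp only [Function.comp]
      ring

theorem frame_C {A C : ℕ × ℕ} {g : List ℕ → List ℕ} (hg : Frame A C g) (j : ℕ) :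
    ∃ g' : List ℕ → List ℕ,
      Frame (A.1 + C.1, A.2 + C.2) (C.1 + j * (A.1 + C.1), C.2 + j * (A.2 + C.2)) g' ∧
      g' [0] = g (List.replicate j 1 ++ [0]) := by
  obtain ⟨g', h1, h2⟩ := frame_C_aux hg j
  refine ⟨g', h1, ?_⟩
  rw [h2]
  simp [phiL]

variable {K : Type*} [Field K]

theorem Q_zero_one (q t : K) : Q q t 0 1 = LinearMap.mulLeft K (e K 1) := by
  rw [Q, dif_pos rfl]
  congr 1
  simp [qSym, hook, h]

theorem Q_one_zero (q t : K) : Q q t 1 0 = Dt q t 0 := by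
  rw [Q, dif_neg one_ne_zero, dif_pos rfl]
  simp [Dt]

theorem frame_coprime {A C : ℕ × ℕ} {g : List ℕ → List ℕ} (hg : Frame A C g) :
    (A.1 + C.1) * A.2 = (A.2 + C.2) * A.1 + 1 ∧ Nat.Coprime (A.1 + C.1) (A.2 + C.2) := by
  obtain ⟨h1, h2, h3⟩ := frame_inv hg
  have h4 : (A.1 + C.1) * A.2 = (A.2 + C.2) * A.1 + 1 := by nlinarith
  refine ⟨h4, ?_⟩
  have h5 : Nat.gcd (A.1 + C.1) (A.2 + C.2) ∣ 1 := by
    have h6 : Nat.gcd (A.1 + C.1) (A.2 + C.2) ∣ (A.2 + C.2) * A.1 + 1 := by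
      rw [← h4]
      exact Dvd.dvd.mul_right (Nat.gcd_dvd_left _ _) _
    exact (Nat.dvd_add_right (Dvd.dvd.mul_right (Nat.gcd_dvd_right _ _) _)).1 h6
  exact Nat.dvd_one.1 h5

theorem frame_splitK {A C : ℕ × ℕ} {g : List ℕ → List ℕ} (hg : Frame A C g) :
    splitK (A.1 + C.1) (A.2 + C.2) = A.1 := by
  obtain ⟨h1, h2, h3⟩ := frame_inv hg
  obtain ⟨h4, h5⟩ := frame_coprime hg
  have hmemA : A.1 ∈ {k : ℕ | (A.1 + C.1) ∣ (A.2 + C.2) * k + 1} := by
    refine ⟨A.2, ?_⟩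
    rw [h4]
  have hle : splitK (A.1 + C.1) (A.2 + C.2) ≤ A.1 := Nat.sInf_le hmemA
  have hmem : (A.1 + C.1) ∣ (A.2 + C.2) * splitK (A.1 + C.1) (A.2 + C.2) + 1 :=
    Nat.sInf_mem (⟨A.1, hmemA⟩ : {k : ℕ | (A.1 + C.1) ∣ (A.2 + C.2) * k + 1}.Nonempty)
  generalize splitK (A.1 + C.1) (A.2 + C.2) = k at hle hmem
  by_contra hne
  obtain ⟨z, hz⟩ : ∃ z, A.1 = k + z := ⟨A.1 - k, by omega⟩
  have hz0 : 0 < z := by omega
  have h6 : (A.1 + C.1) ∣ ((A.2 + C.2) * k + 1) + (A.2 + C.2) * z := by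
    have h7 : ((A.2 + C.2) * k + 1) + (A.2 + C.2) * z = (A.2 + C.2) * A.1 + 1 := by
      rw [hz]; ring
    rw [h7, ← h4]
    exact Dvd.intro _ rfl
  have h8 : (A.1 + C.1) ∣ (A.2 + C.2) * z := (Nat.dvd_add_right hmem).1 h6
  have h9 : (A.1 + C.1) ∣ z := h5.dvd_of_dvd_mul_left h8
  have h10 := Nat.le_of_dvd hz0 h9
  omega

theorem frame_splitL {A C : ℕ × ℕ} {g : List ℕ → List ℕ} (hg : Frame A C g) :
    splitL (A.1 + C.1) (A.2 + C.2) = A.2 := by
  obtain ⟨h1, h2, h3⟩ := frame_inv hg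
  obtain ⟨h4, h5⟩ := frame_coprime hg
  unfold splitL
  rw [frame_splitK hg, ← h4]
  exact Nat.mul_div_cancel_left _ (by omega)

theorem Q_frame (q t : K) {A C : ℕ × ℕ} {g : List ℕ → List ℕ} (hg : Frame A C g) (d : ℕ)
    (hd : 1 ≤ d) :
    Q q t ((A.1 + C.1) * d) ((A.2 + C.2) * d) = ((1 - q) * (1 - t))⁻¹ •
      (Q q t A.1 A.2 * Q q t (C.1 + (d - 1) * (A.1 + C.1)) (C.2 + (d - 1) * (A.2 + C.2)) -
        Q q t (C.1 + (d - 1) * (A.1 + C.1)) (C.2 + (d - 1) * (A.2 + C.2)) * Q q t A.1 A.2) := by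
  obtain ⟨h1, h2, h3⟩ := frame_inv hg
  obtain ⟨h4, h5⟩ := frame_coprime hg
  obtain ⟨c, rfl⟩ : ∃ c, d = c + 1 := ⟨d - 1, by omega⟩
  have hm : (A.1 + C.1) * (c + 1) ≠ 0 := Nat.mul_ne_zero (by omega) (by omega)
  have hn : (A.2 + C.2) * (c + 1) ≠ 0 := Nat.mul_ne_zero (by omega) (by omega)
  have hgcd : Nat.gcd ((A.1 + C.1) * (c + 1)) ((A.2 + C.2) * (c + 1)) = c + 1 := by
    rw [Nat.gcd_mul_right, h5.gcd_eq_one, one_mul]
  have e1 : (A.1 + C.1) * (c + 1) / (c + 1) = A.1 + C.1 :=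
    Nat.mul_div_cancel _ (by omega)
  have e2 : (A.2 + C.2) * (c + 1) / (c + 1) = A.2 + C.2 :=
    Nat.mul_div_cancel _ (by omega)
  have e3 : (A.1 + C.1) * (c + 1) - A.1 = C.1 + (c + 1 - 1) * (A.1 + C.1) := by
    have : (A.1 + C.1) * (c + 1) = A.1 + (C.1 + c * (A.1 + C.1)) := by ring
    rw [this, Nat.add_sub_cancel_left, Nat.add_sub_cancel]
  have e4 : (A.2 + C.2) * (c + 1) - A.2 = C.2 + (c + 1 - 1) * (A.2 + C.2) := by
    have : (A.2 + C.2) * (c + 1) = A.2 + (C.2 + c * (A.2 + C.2)) := by ring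
    rw [this, Nat.add_sub_cancel_left, Nat.add_sub_cancel]
  conv_lhs => rw [Q]
  rw [dif_neg hm, dif_neg hn, hgcd, e1, e2, frame_splitK hg, frame_splitL hg, e3, e4]

end Pool.Agent.EP
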